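import Pool.Agent.P.MP_3fb035_pr.EvE

open MeasureTheory

namespace Pool.Agent.Results.MP_3fb035_pr.EvenReturn
open Pool.Agent.Lib.GRW Pool.Agent.P3fb035

theorem result (V : Type) [Infinite V] (G : SimpleGraph V) [G.LocallyFinite] (hc : G.Connected)
    (ht : ∀ u v : V, ∃ φ : G ≃g G, φ u = v) (he : ∀ v, Even (G.degree v)) (o : V) :
    (∃ (Ω : Type) (_ : MeasurableSpace Ω) (P : Measure Ω) (Y : ℕ → Ω → V), IsSRW G o P Y) ∧
    ∀ (Ω : Type) [MeasurableSpace Ω] (P : Measure Ω) (X : ℕ → Ω → V)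
      (Ω' : Type) [MeasurableSpace Ω'] (P' : Measure Ω') (Y : ℕ → Ω' → V),
      IsGRW G o P X → IsSRW G o P' Y →
      (P {ω | {t | X t ω = o}.Infinite} = 1 ↔
        P {ω | ∃ t, 1 ≤ t ∧ X t ω = o} = 1 ∧ P' {ω | ∃ t, 1 ≤ t ∧ Y t ω = o} = 1) :=
  ⟨exists_isSRW hc o, fun _ _ _ _ _ _ _ _ h h' => even_return hc he ht h h'⟩

end Pool.Agent.Results.MP_3fb035_pr.EvenReturn
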