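import Pool.Agent.P.MP_3fb035_pr.Once

open MeasureTheory

namespace Pool.Agent.Results.MP_3fb035_pr.NoZeroOneOnce
open Pool.Agent.Lib.GRW

theorem result :
    ∃ (V : Type) (G : SimpleGraph V) (_ : G.LocallyFinite), Infinite V ∧ G.Connected ∧
      (∀ u v : V, ∃ φ : G ≃g G, φ u = v) ∧
      ∀ o : V,
        (∃ (Ω : Type) (_ : MeasurableSpace Ω) (P : Measure Ω) (X : ℕ → Ω → V), IsGRW G o P X) ∧
        ∀ (Ω : Type) [MeasurableSpace Ω] (P : Measure Ω) (X : ℕ → Ω → V), IsGRW G o P X →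
          0 < P {ω | ∃ t, 1 ≤ t ∧ X t ω = o} ∧ P {ω | ∃ t, 1 ≤ t ∧ X t ω = o} < 1 :=
  ⟨ℤ, Pool.Agent.P.MP_3fb035_pr.Z12, inferInstance, inferInstance,
    Pool.Agent.P.MP_3fb035_pr.connected, Pool.Agent.P.MP_3fb035_pr.transitive, fun o =>
    ⟨exists_isGRW _ (fun v => ⟨v + 1, Or.inl rfl⟩) o,
      fun _ _ P X h => Pool.Agent.P.MP_3fb035_pr.once o P X h⟩⟩

end Pool.Agent.Results.MP_3fb035_pr.NoZeroOneOnce
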