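import Pool.Agent.K.MP_3fb035_pr.C1

open MeasureTheory

namespace Pool.Agent.Results.MP_3fb035_pr.ReturnCubic
open Pool.Agent.Lib.GRW Pool.Agent.P3fb035

theorem result (V : Type) [Infinite V] (G : SimpleGraph V) [G.LocallyFinite] (hc : G.Connected)
    (ht : ∀ u v : V, ∃ φ : G ≃g G, φ u = v) (o : V) (hd : G.degree o = 3) :
    (∃ (Ω : Type) (_ : MeasurableSpace Ω) (P : Measure Ω) (X : ℕ → Ω → V), IsGRW G o P X) ∧
    ∀ (Ω : Type) [MeasurableSpace Ω] (P : Measure Ω) (X : ℕ → Ω → V), IsGRW G o P X →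
      (P {ω | {t | X t ω = o}.Infinite} = 1 ↔ P {ω | ∃ t, 1 ≤ t ∧ X t ω = o} = 1) :=
  haveI := countable_of_connected hc
  ⟨exists_isGRW G (exists_adj hc) o, fun _ _ _ _ h => return_cubic hc ht h hd⟩

end Pool.Agent.Results.MP_3fb035_pr.ReturnCubic
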